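import Pool.Agent.Helper93.TCU.Stmts
import Pool.Agent.Helper93.TCU.Bas
import Pool.Agent.Helper3.TCS.J3

/-!
# TCU: module J4 (helper75): bounded differences of `G4`
-/

set_option autoImplicit false
set_option linter.unusedSectionVars false

namespace Pool.TCU

open Pool.TC Pool.TCM Pool.TCS Finset
open scoped Classical

section

variable {V κ : Type} [Fintype V] [Fintype κ] {S : CS V κ} {U : Finset V} {L : V → Finset κ}
  {D l m K : ℕ} {x : ℝ} {q : V → κ → ℝ} {Lam μ : ℝ} {o : V → κ} {T : V → κ → ℝ}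

private theorem J4_C_card (hc : Cho S U L K o) {v : V} (hv : v ∈ U) :
    (U.filter (fun w => w = v ∨ conf S o w v)).card ≤ 2 * K + 1 := by
  have h1 : U.filter (fun w => w = v ∨ conf S o w v) ⊆ insert v (KP S U o v (o v) ∪
      univ.filter (fun w => w ∈ U ∧ S.r w (o w) = S.r v (o v))) := by
    intro w hw
    rw [mem_filter] at hw
    obtain ⟨hwU, h2⟩ := hw
    rw [mem_insert, mem_union]
    rcases h2 with h2 | ⟨-, h2 | h2⟩
    · exact Or.inl h2
    · right
      left
      unfold KP
      rw [mem_filter]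
      exact ⟨mem_univ _, hwU, S.symm _ _ h2.1, h2.2⟩
    · right
      right
      rw [mem_filter]
      exact ⟨mem_univ _, hwU, h2⟩
  have h2 := (card_le_card h1).trans ((card_insert_le _ _).trans
    (Nat.add_le_add_right (card_union_le _ _) 1))
  have h3 := hc.kP v hv (o v) (hc.mem v hv)
  have h4 := hc.kR (S.r v (o v))
  omega

/-- the bounds for the differences -/
private noncomputable def J4_cc (S : CS V κ) (U : Finset V) (o : V → κ) (T : V → κ → ℝ) :
    Lab V κ → ℝ
  | Sum.inl (Sum.inl v) => if v ∈ U then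
      ∑ w ∈ U.filter (fun w => w = v ∨ conf S o w v), T w (o w) else 0
  | Sum.inl (Sum.inr v) => if v ∈ U then T v (o v) else 0
  | Sum.inr _ => 0

private theorem J4_nn (hT : ∀ w b, 0 ≤ T w b) (t : Lab V κ) : 0 ≤ J4_cc S U o T t := by
  rcases t with (v | v) | v
  · show 0 ≤ if v ∈ U then
      ∑ w ∈ U.filter (fun w => w = v ∨ conf S o w v), T w (o w) else 0
    split_ifs
    · exact sum_nonneg fun w _ => hT w _
    · exact le_refl _
  · show 0 ≤ if v ∈ U then T v (o v) else 0
    split_ifs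
    · exact hT v _
    · exact le_refl _
  · exact le_refl _

/-- the difference is bounded by the weight of the changed vertices -/
private theorem J4_diff (hT : ∀ w b, 0 ≤ T w b)
    (ω ω' : Lab V κ → Fin (m ^ (2 * K + 1))) :
    |G4 S U m K o T ω - G4 S U m K o T ω'| ≤
      ∑ w ∈ U.filter (fun w => ¬ (retv S U o m K ω w ↔ retv S U o m K ω' w)), T w (o w) := by
  unfold G4
  rw [← sum_sub_distrib, sum_filter]
  refine (abs_sum_le_sum_abs _ _).trans (sum_le_sum fun w _ => ?_)
  have h := hT w (o w)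
  by_cases h1 : retv S U o m K ω w <;> by_cases h2 : retv S U o m K ω' w <;>
    simp [h1, h2, abs_of_nonneg h]

private theorem J4_bd (hT : ∀ w b, 0 ≤ T w b) (t : Lab V κ)
    (ω ω' : Lab V κ → Fin (m ^ (2 * K + 1))) (h : ∀ t', t' ≠ t → ω t' = ω' t') :
    |G4 S U m K o T ω - G4 S U m K o T ω'| ≤ J4_cc S U o T t := by
  refine (J4_diff hT ω ω').trans ?_
  rcases t with (v | v) | v
  · show _ ≤ if v ∈ U then
      ∑ w ∈ U.filter (fun w => w = v ∨ conf S o w v), T w (o w) else 0
    have h1 : ∀ w, ¬ (retv S U o m K ω w ↔ retv S U o m K ω' w) →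
        v ∈ U ∧ (w = v ∨ conf S o w v) := by
      intro w hw
      obtain ⟨hwU, h2⟩ := J3_ret h hw
      rcases h2 with h2 | h2 | ⟨w', hw', h3, h2⟩
      · have h4 : v = w := by simpa using h2
        rw [h4]
        exact ⟨hwU, Or.inl rfl⟩
      · exact absurd h2 (by simp)
      · have h4 : v = w' := by simpa using h2
        rw [h4]
        exact ⟨hw', Or.inr h3⟩
    split_ifs with hv
    · refine sum_le_sum_of_subset_of_nonneg ?_ (fun w _ _ => hT w _)
      intro w hw
      rw [mem_filter] at hw ⊢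
      exact ⟨hw.1, (h1 w hw.2).2⟩
    · refine le_of_eq (sum_eq_zero fun w hw => ?_)
      exact absurd (h1 w (mem_filter.1 hw).2).1 hv
  · show _ ≤ if v ∈ U then T v (o v) else 0
    have h1 : ∀ w, ¬ (retv S U o m K ω w ↔ retv S U o m K ω' w) → w = v := by
      intro w hw
      obtain ⟨hwU, h2⟩ := J3_ret h hw
      rcases h2 with h2 | h2 | ⟨w', hw', h3, h2⟩
      · exact absurd h2 (by simp)
      · have h4 : v = w := by simpa using h2
        exact h4.symm
      · exact absurd h2 (by simp)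
    have h2 : ∑ w ∈ U.filter (fun w => ¬ (retv S U o m K ω w ↔ retv S U o m K ω' w)),
        T w (o w) ≤ ∑ w ∈ U.filter (fun w => w = v), T w (o w) := by
      refine sum_le_sum_of_subset_of_nonneg ?_ (fun w _ _ => hT w _)
      intro w hw
      rw [mem_filter] at hw ⊢
      exact ⟨hw.1, h1 w hw.2⟩
    refine h2.trans (le_of_eq ?_)
    rw [sum_filter, sum_ite_eq']
  · show _ ≤ (0 : ℝ)
    refine le_of_eq (sum_eq_zero fun w hw => ?_)
    obtain ⟨hwU, h2⟩ := J3_ret h (mem_filter.1 hw).2
    rcases h2 with h2 | h2 | ⟨w', hw', h3, h2⟩ <;> exact absurd h2 (by simp)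

private theorem J4_loc (v : V) (hl : ∀ w b, T w b ≠ 0 → near S 3 v w) (t : Lab V κ)
    (ht : J4_cc S U o T t ≠ 0) : near S 8 v (pos t) := by
  rcases t with (w | w) | w
  · show near S 8 v w
    have h1 : (if w ∈ U then
      ∑ y ∈ U.filter (fun y => y = w ∨ conf S o y w), T y (o y) else 0) ≠ 0 := ht
    split_ifs at h1 with hw
    · obtain ⟨y, hy, hy0⟩ := exists_ne_zero_of_sum_ne_zero h1
      have h2 := hl y (o y) hy0
      rcases (mem_filter.1 hy).2 with h3 | h3
      · rw [← h3]
        exact J3_near_le (by norm_num) h2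
      · exact J3_near_le (n := 5) (by norm_num) (J3_conf_near h2 h3)
    · exact absurd rfl h1
  · show near S 8 v w
    have h1 : (if w ∈ U then T w (o w) else 0) ≠ 0 := ht
    split_ifs at h1 with hw
    · exact J3_near_le (by norm_num) (hl w (o w) h1)
    · exact absurd rfl h1
  · exact absurd rfl ht

private theorem J4_sum (hK : (24 : ℝ) ≤ K) (hc : Cho S U L K o) (hT : ∀ w b, 0 ≤ T w b)
    (hμ : ∀ w b, T w b ≤ μ) :
    (∑ t, J4_cc S U o T t ^ 2) ≤ 5 * (K : ℝ) ^ 2 * (μ * ∑ w ∈ U, T w (o w)) := by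
  have hnn : ∀ v : V, 0 ≤ ∑ w ∈ U.filter (fun w => w = v ∨ conf S o w v), T w (o w) :=
    fun v => sum_nonneg fun w _ => hT w _
  rw [Fintype.sum_sum_type, Fintype.sum_sum_type]
  have s3 : ∑ t : V ⊕ (V × κ), J4_cc S U o T (Sum.inr t) ^ 2 = 0 := by
    refine sum_eq_zero fun p _ => ?_
    show (0 : ℝ) ^ 2 = 0
    norm_num
  have s2 : ∑ v : V, J4_cc S U o T (Sum.inl (Sum.inr v)) ^ 2 ≤ μ * ∑ w ∈ U, T w (o w) := by
    have c1 : ∀ v : V, J4_cc S U o T (Sum.inl (Sum.inr v)) ^ 2 ≤
        if v ∈ U then μ * T v (o v) else 0 := by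
      intro v
      show (if v ∈ U then T v (o v) else 0) ^ 2 ≤ _
      split_ifs with hv
      · have h1 := hT v (o v)
        have h2 := hμ v (o v)
        nlinarith
      · norm_num
    refine (sum_le_sum fun v _ => c1 v).trans (le_of_eq ?_)
    rw [sum_ite_mem, univ_inter, mul_sum]
  have s1 : ∑ v : V, J4_cc S U o T (Sum.inl (Sum.inl v)) ^ 2 ≤
      (2 * K + 1) ^ 2 * (μ * ∑ w ∈ U, T w (o w)) := by
    have c1 : ∀ v : V, J4_cc S U o T (Sum.inl (Sum.inl v)) ^ 2 ≤
        ((2 * K + 1) * μ) * ∑ w ∈ U,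
          (if v ∈ U ∧ (w = v ∨ conf S o w v) then T w (o w) else 0) := by
      intro v
      show (if v ∈ U then
        ∑ w ∈ U.filter (fun w => w = v ∨ conf S o w v), T w (o w) else 0) ^ 2 ≤ _
      by_cases hv : v ∈ U
      · rw [if_pos hv]
        have c2 : ∑ w ∈ U, (if v ∈ U ∧ (w = v ∨ conf S o w v) then T w (o w) else 0) =
            ∑ w ∈ U.filter (fun w => w = v ∨ conf S o w v), T w (o w) := by
          rw [sum_filter]
          refine sum_congr rfl fun w _ => ?_
          by_cases k : w = v ∨ conf S o w v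
          · rw [if_pos ⟨hv, k⟩, if_pos k]
          · rw [if_neg fun k' => k k'.2, if_neg k]
        rw [c2]
        have c3 : ∑ w ∈ U.filter (fun w => w = v ∨ conf S o w v), T w (o w) ≤
            (2 * K + 1) * μ := by
          have c4 : ∑ w ∈ U.filter (fun w => w = v ∨ conf S o w v), T w (o w) ≤
              ∑ w ∈ U.filter (fun w => w = v ∨ conf S o w v), μ :=
            sum_le_sum fun w _ => hμ w _
          rw [sum_const, nsmul_eq_mul] at c4
          have c5 := J4_C_card hc hv
          have c6 : ((U.filter (fun w => w = v ∨ conf S o w v)).card : ℝ) ≤ 2 * K + 1 := by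
            exact_mod_cast c5
          have c7 : 0 ≤ μ := (hT v (o v)).trans (hμ v (o v))
          exact c4.trans (mul_le_mul_of_nonneg_right c6 c7)
        have c8 := hnn v
        rw [pow_two]
        exact mul_le_mul_of_nonneg_right c3 c8
      · rw [if_neg hv, zero_pow two_ne_zero]
        have c9 : ∑ w ∈ U, (if v ∈ U ∧ (w = v ∨ conf S o w v) then T w (o w) else 0) = 0 :=
          sum_eq_zero fun w _ => if_neg fun k => hv k.1
        rw [c9, mul_zero]
    refine (sum_le_sum fun v _ => c1 v).trans ?_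
    rw [← mul_sum, sum_comm]
    have c2 : ∀ w ∈ U, ∑ v : V, (if v ∈ U ∧ (w = v ∨ conf S o w v) then T w (o w) else 0) ≤
        (2 * K + 1) * T w (o w) := by
      intro w hw
      rw [← sum_filter, sum_const, nsmul_eq_mul]
      have c4 : (univ : Finset V).filter (fun v => v ∈ U ∧ (w = v ∨ conf S o w v)) ⊆
          U.filter (fun v => v = w ∨ conf S o v w) := by
        intro v hv
        rw [mem_filter] at hv ⊢
        refine ⟨hv.2.1, ?_⟩
        rcases hv.2.2 with k | k
        · exact Or.inl k.symm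
        · exact Or.inr (J3_conf_symm k)
      have c5 := (card_le_card c4).trans (J4_C_card hc hw)
      have c6 : (((univ : Finset V).filter
          (fun v => v ∈ U ∧ (w = v ∨ conf S o w v))).card : ℝ) ≤ 2 * K + 1 := by
        exact_mod_cast c5
      exact mul_le_mul_of_nonneg_right c6 (hT w _)
    have c3 := sum_le_sum c2
    rw [← mul_sum] at c3
    rcases U.eq_empty_or_nonempty with hU | ⟨u, hu⟩
    · subst hU
      simp
    · have c4 : 0 ≤ μ := (hT u (o u)).trans (hμ u (o u))
      have c5 : (0 : ℝ) ≤ (2 * K + 1) * μ := by positivity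
      calc (2 * (K : ℝ) + 1) * μ * ∑ w ∈ U, ∑ v : V,
            (if v ∈ U ∧ (w = v ∨ conf S o w v) then T w (o w) else 0)
          ≤ (2 * (K : ℝ) + 1) * μ * ((2 * K + 1) * ∑ w ∈ U, T w (o w)) :=
            mul_le_mul_of_nonneg_left c3 c5
        _ = _ := by ring
  rw [s3]
  have h0 : 0 ≤ μ * ∑ w ∈ U, T w (o w) := by
    rcases U.eq_empty_or_nonempty with hU | ⟨u, hu⟩
    · subst hU
      simp
    · exact mul_nonneg ((hT u (o u)).trans (hμ u (o u))) (sum_nonneg fun w _ => hT w _)
  have h6 : (2 * (K : ℝ) + 1) ^ 2 + 1 ≤ 5 * (K : ℝ) ^ 2 := by nlinarith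
  have h7 := mul_le_mul_of_nonneg_right h6 h0
  linarith

end

theorem thm_J4 : St_J4 := by
  intro V κ _ _ S U L D l m K x q Lam μ o T v hH hc hT hμ hl
  exact ⟨J4_cc S U o T, J4_nn hT, fun t ω ω' h => J4_bd hT t ω ω' h,
    J4_sum hH.Kpos hc hT hμ, J4_loc v hl⟩

end Pool.TCU
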